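import Pool.Agent.H54.Kreiss

namespace Pool.Agent.Results.MP_389529_an.ThetaOne

open Pool.Agent.H54.Kreiss

theorem result : ∀ θ : ℝ, Admissible θ → 1 ≤ θ := fun _ h => main h

end Pool.Agent.Results.MP_389529_an.ThetaOne
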